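import Mathlib

/-!
Row MMX of the project FQ (plan: helper34).
Minimax by finite dimensional separation.
-/

namespace Pool.Agent.Helper34.FQ

open Finset

theorem minimax {J ι : Type} [Fintype J] [Fintype ι] (v : J → ι → ℝ) (c : ι → ℝ)
    (h : ∀ z : ι → ℝ, (∀ i, 0 ≤ z i) → ∃ j, ∑ i, z i * v j i ≤ ∑ i, z i * c i) :
    ∃ w : J → ℝ, (∀ j, 0 ≤ w j) ∧ ∑ j, w j = 1 ∧ ∀ i, ∑ j, w j * v j i ≤ c i := by
  classical
  by_contra hcon
  push Not at hcon
  let L : (J → ℝ) →ₗ[ℝ] (ι → ℝ) :=
    { toFun := fun w i => ∑ j, w j * v j i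
      map_add' := fun a b => by
        funext i
        simp [add_mul, Finset.sum_add_distrib]
      map_smul' := fun r a => by
        funext i
        simp [Finset.mul_sum, mul_assoc] }
  have hL : ∀ w i, L w i = ∑ j, w j * v j i := fun w i => rfl
  have hcont : Continuous L := LinearMap.continuous_of_finiteDimensional L
  have hS1 : Convex ℝ (L '' stdSimplex ℝ J) := (convex_stdSimplex ℝ J).linear_image L
  have hS2 : IsCompact (L '' stdSimplex ℝ J) := (isCompact_stdSimplex ℝ J).image hcont
  have hdisj : Disjoint (L '' stdSimplex ℝ J) (Set.Iic c) := by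
    rw [Set.disjoint_left]
    rintro x ⟨w, hw, rfl⟩ hx
    obtain ⟨i, hi⟩ := hcon w hw.1 hw.2
    exact absurd (hx i) (not_le.mpr hi)
  obtain ⟨f, u, t, hfu, hut, hft⟩ := geometric_hahn_banach_compact_closed hS1 hS2
    (convex_Iic c) isClosed_Iic hdisj
  have hf : ∀ x : ι → ℝ, f x = ∑ i, x i * f (Pi.single i 1) := by
    intro x
    conv_lhs => rw [← Finset.univ_sum_single x]
    rw [map_sum]
    refine Finset.sum_congr rfl fun i _ => ?_
    have : (Pi.single i (x i) : ι → ℝ) = (x i) • (Pi.single i 1 : ι → ℝ) := by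
      rw [← Pi.single_smul, smul_eq_mul, mul_one]
    rw [this, map_smul, smul_eq_mul]
  have hneg : ∀ i, f (Pi.single i 1) ≤ 0 := by
    intro i
    by_contra hpos
    push Not at hpos
    have hfc : t < f c := hft c (le_refl c)
    have key := hft (c - ((f c - t) / f (Pi.single i 1)) • (Pi.single i 1 : ι → ℝ)) (by
      intro k
      have h1 : 0 ≤ ((f c - t) / f (Pi.single i 1)) := by
        apply div_nonneg
        · linarith
        · exact hpos.le
      have h2 : (0 : ℝ) ≤ (Pi.single i 1 : ι → ℝ) k := by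
        by_cases hk : k = i
        · subst hk
          simp
        · simp [Pi.single_eq_of_ne hk]
      have h3 := mul_nonneg h1 h2
      simp only [Pi.sub_apply, Pi.smul_apply, smul_eq_mul]
      linarith)
    rw [map_sub, map_smul, smul_eq_mul, div_mul_cancel₀ _ hpos.ne'] at key
    linarith
  obtain ⟨j, hj⟩ := h (fun i => - f (Pi.single i 1)) (fun i => by
    have := hneg i
    linarith)
  have hvj : f (v j) < u := by
    refine hfu _ ⟨Pi.single j 1, single_mem_stdSimplex ℝ j, ?_⟩
    funext i
    rw [hL]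
    rw [Finset.sum_eq_single j]
    · simp
    · intro b _ hb
      simp [Pi.single_eq_of_ne hb]
    · intro hb
      exact absurd (Finset.mem_univ j) hb
  have hfc : t < f c := hft c (le_refl c)
  have e1 : f (v j) = ∑ i, v j i * f (Pi.single i 1) := hf (v j)
  have e2 : f c = ∑ i, c i * f (Pi.single i 1) := hf c
  have e3 : ∑ i, (fun i => - f (Pi.single i 1)) i * v j i = - f (v j) := by
    rw [e1, ← Finset.sum_neg_distrib]
    refine Finset.sum_congr rfl fun i _ => ?_
    simp only
    ring
  have e4 : ∑ i, (fun i => - f (Pi.single i 1)) i * c i = - f c := by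
    rw [e2, ← Finset.sum_neg_distrib]
    refine Finset.sum_congr rfl fun i _ => ?_
    simp only
    ring
  rw [e3, e4] at hj
  linarith

end Pool.Agent.Helper34.FQ
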