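import Mathlib

set_option autoImplicit false

namespace Pool.Agent.Helper28.SetAlg

universe u

/-- The set function `φ` is increasing on the members of `B`. -/
def Increasing {J : Type u} (B : Set (Set J)) (φ : Set J → ℝ) : Prop :=
  ∀ X ∈ B, ∀ Y ∈ B, X ⊆ Y → φ X ≤ φ Y

/-- The set function `φ` is bounded on the members of `B`. -/
def BoundedOn {J : Type u} (B : Set (Set J)) (φ : Set J → ℝ) : Prop :=
  ∃ b : ℝ, ∀ X ∈ B, |φ X| ≤ b

/-- The set function `φ` is submodular on the members of `B`. -/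
def SubmodularOn {J : Type u} (B : Set (Set J)) (φ : Set J → ℝ) : Prop :=
  ∀ X ∈ B, ∀ Y ∈ B, φ (X ∩ Y) + φ (X ∪ Y) ≤ φ X + φ Y

/-- The set function `φ` is, on `B`, a difference of two increasing set functions. -/
def BoundedVariation {J : Type u} (B : Set (Set J)) (φ : Set J → ℝ) : Prop :=
  ∃ f g : Set J → ℝ, Increasing B f ∧ Increasing B g ∧ ∀ X ∈ B, φ X = f X - g X

/-- The set function `φ` is, on `B`, a difference of two bounded submodular set functions. -/
def DiffOfBoundedSubmodular {J : Type u} (B : Set (Set J)) (φ : Set J → ℝ) : Prop :=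
  ∃ ψ₁ ψ₂ : Set J → ℝ, (BoundedOn B ψ₁ ∧ SubmodularOn B ψ₁) ∧
    (BoundedOn B ψ₂ ∧ SubmodularOn B ψ₂) ∧ ∀ X ∈ B, φ X = ψ₁ X - ψ₂ X

end Pool.Agent.Helper28.SetAlg
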