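import Mathlib
import Pool.Agent.Helper28.SetAlgDefs

set_option autoImplicit false

namespace Pool.Agent.Helper28.SetAlg

open MeasureTheory Finset

universe u

section Finite

variable {J : Type u} {B : Set (Set J)}

lemma finite_case (hB : IsSetAlgebra B) (hfin : B.Finite) (φ : Set J → ℝ) :
    DiffOfBoundedSubmodular B φ := by
  classical
  let F : Finset (Set J) := hfin.toFinset
  have hF : ∀ X, X ∈ F ↔ X ∈ B := fun X => hfin.mem_toFinset
  let w : Set J → ℕ := fun X => (F.filter (fun Z => Z ⊆ X)).card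
  -- supermodularity of w with a gap
  have hw : ∀ X Y, w X + w Y ≤ w (X ∩ Y) + w (X ∪ Y) := by
    intro X Y
    have h1 : (F.filter (fun Z => Z ⊆ X)) ∩ (F.filter (fun Z => Z ⊆ Y)) =
        F.filter (fun Z => Z ⊆ X ∩ Y) := by
      ext Z; simp only [mem_inter, mem_filter, Set.subset_inter_iff]; tauto
    have h2 : (F.filter (fun Z => Z ⊆ X)) ∪ (F.filter (fun Z => Z ⊆ Y)) ⊆
        F.filter (fun Z => Z ⊆ X ∪ Y) := by
      intro Z hZ
      simp only [mem_union, mem_filter] at hZ ⊢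
      rcases hZ with ⟨h, h'⟩ | ⟨h, h'⟩
      · exact ⟨h, h'.trans Set.subset_union_left⟩
      · exact ⟨h, h'.trans Set.subset_union_right⟩
    have h3 := card_union_add_card_inter (F.filter (fun Z => Z ⊆ X)) (F.filter (fun Z => Z ⊆ Y))
    have h4 := card_le_card h2
    rw [h1] at h3
    show (F.filter (fun Z => Z ⊆ X)).card + (F.filter (fun Z => Z ⊆ Y)).card ≤
      (F.filter (fun Z => Z ⊆ X ∩ Y)).card + (F.filter (fun Z => Z ⊆ X ∪ Y)).card
    omega
  have hw' : ∀ X ∈ B, ∀ Y ∈ B, ¬ X ⊆ Y → ¬ Y ⊆ X → w X + w Y + 1 ≤ w (X ∩ Y) + w (X ∪ Y) := by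
    intro X hX Y hY hXY hYX
    have h1 : (F.filter (fun Z => Z ⊆ X)) ∩ (F.filter (fun Z => Z ⊆ Y)) =
        F.filter (fun Z => Z ⊆ X ∩ Y) := by
      ext Z; simp only [mem_inter, mem_filter, Set.subset_inter_iff]; tauto
    have h2 : (F.filter (fun Z => Z ⊆ X)) ∪ (F.filter (fun Z => Z ⊆ Y)) ⊂
        F.filter (fun Z => Z ⊆ X ∪ Y) := by
      rw [Finset.ssubset_iff_of_subset]
      · refine ⟨X ∪ Y, ?_, ?_⟩
        · simp only [mem_filter]
          exact ⟨(hF _).2 (hB.union_mem hX hY), subset_rfl⟩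
        · simp only [mem_union, mem_filter, not_or, not_and]
          exact ⟨fun _ h => hYX (Set.subset_union_right.trans h),
            fun _ h => hXY (Set.subset_union_left.trans h)⟩
      · intro Z hZ
        simp only [mem_union, mem_filter] at hZ ⊢
        rcases hZ with ⟨h, h'⟩ | ⟨h, h'⟩
        · exact ⟨h, h'.trans Set.subset_union_left⟩
        · exact ⟨h, h'.trans Set.subset_union_right⟩
    have h3 := card_union_add_card_inter (F.filter (fun Z => Z ⊆ X)) (F.filter (fun Z => Z ⊆ Y))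
    have h4 := card_lt_card h2
    rw [h1] at h3
    show (F.filter (fun Z => Z ⊆ X)).card + (F.filter (fun Z => Z ⊆ Y)).card + 1 ≤
      (F.filter (fun Z => Z ⊆ X ∩ Y)).card + (F.filter (fun Z => Z ⊆ X ∪ Y)).card
    omega
  -- a bound for φ
  obtain ⟨M, hM0, hM⟩ : ∃ M : ℝ, 0 ≤ M ∧ ∀ X ∈ B, |φ X| ≤ M := by
    refine ⟨∑ X ∈ F, |φ X|, Finset.sum_nonneg (fun _ _ => abs_nonneg _), ?_⟩
    intro X hX
    exact Finset.single_le_sum (f := fun X => |φ X|) (fun _ _ => abs_nonneg _) ((hF X).2 hX)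
  have hwb : ∀ X, (w X : ℝ) ≤ F.card := by
    intro X
    exact_mod_cast card_le_card (filter_subset _ _)
  refine ⟨fun X => φ X - 4 * M * w X, fun X => - (4 * M * w X), ⟨⟨M + 4 * M * F.card, ?_⟩, ?_⟩,
    ⟨⟨4 * M * F.card, ?_⟩, ?_⟩, ?_⟩
  · intro X hX
    have h1 := abs_le.1 (hM X hX)
    have h2 : 4 * M * (w X : ℝ) ≤ 4 * M * F.card := by
      apply mul_le_mul_of_nonneg_left (hwb X); linarith
    have h3 : 0 ≤ 4 * M * (w X : ℝ) := by positivity
    rw [abs_le]
    constructor <;> linarith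
  · intro X hX Y hY
    by_cases hXY : X ⊆ Y
    · rw [Set.inter_eq_left.2 hXY, Set.union_eq_right.2 hXY]
    · by_cases hYX : Y ⊆ X
      · rw [Set.inter_eq_right.2 hYX, Set.union_eq_left.2 hYX]
        apply le_of_eq; ring
      · have h1 : (w X : ℝ) + w Y + 1 ≤ w (X ∩ Y) + w (X ∪ Y) := by
          exact_mod_cast hw' X hX Y hY hXY hYX
        have h2 := abs_le.1 (hM X hX)
        have h3 := abs_le.1 (hM Y hY)
        have h4 := abs_le.1 (hM _ (hB.inter_mem hX hY))
        have h5 := abs_le.1 (hM _ (hB.union_mem hX hY))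
        have h6 : 4 * M * ((w X : ℝ) + w Y + 1) ≤ 4 * M * (w (X ∩ Y) + w (X ∪ Y)) := by
          apply mul_le_mul_of_nonneg_left h1; linarith
        show φ (X ∩ Y) - 4 * M * w (X ∩ Y) + (φ (X ∪ Y) - 4 * M * w (X ∪ Y)) ≤
          φ X - 4 * M * w X + (φ Y - 4 * M * w Y)
        nlinarith
  · intro X hX
    have h2 : 4 * M * (w X : ℝ) ≤ 4 * M * F.card := by
      apply mul_le_mul_of_nonneg_left (hwb X); linarith
    have h3 : 0 ≤ 4 * M * (w X : ℝ) := by positivity
    rw [abs_neg, abs_of_nonneg h3]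
    exact h2
  · intro X hX Y hY
    have h1 : (w X : ℝ) + w Y ≤ w (X ∩ Y) + w (X ∪ Y) := by
      exact_mod_cast hw X Y
    have h6 : 4 * M * ((w X : ℝ) + w Y) ≤ 4 * M * (w (X ∩ Y) + w (X ∪ Y)) := by
      apply mul_le_mul_of_nonneg_left h1; linarith
    show - (4 * M * w (X ∩ Y)) + - (4 * M * w (X ∪ Y)) ≤ - (4 * M * w X) + - (4 * M * w Y)
    linarith
  · intro X _
    ring

end Finite

section Infinite

variable {J : Type u} {B : Set (Set J)}

/-- `X` is a member of `B` with infinitely many subsets in `B`. -/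
def Big (B : Set (Set J)) (X : Set J) : Prop := X ∈ B ∧ {Y | Y ∈ B ∧ Y ⊆ X}.Infinite

lemma big_step (hB : IsSetAlgebra B) (X : Set J) (hX : Big B X) :
    ∃ X', Big B X' ∧ X' ⊂ X := by
  classical
  obtain ⟨hXB, hXinf⟩ := hX
  have h1 : ({Y | Y ∈ B ∧ Y ⊆ X} \ {∅, X}).Infinite := hXinf.sdiff (Set.toFinite _)
  obtain ⟨Y, ⟨hYB, hYX⟩, hY⟩ := h1.nonempty
  simp only [Set.mem_insert_iff, Set.mem_singleton_iff, not_or] at hY
  by_cases hbig : {Z | Z ∈ B ∧ Z ⊆ Y}.Infinite
  · exact ⟨Y, ⟨hYB, hbig⟩, hYX.ssubset_of_ne hY.2⟩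
  by_cases hbig' : {Z | Z ∈ B ∧ Z ⊆ X \ Y}.Infinite
  · refine ⟨X \ Y, ⟨hB.sdiff_mem hXB hYB, hbig'⟩, ?_⟩
    refine Set.sdiff_subset.ssubset_of_ne ?_
    intro h
    apply hY.1
    rw [Set.eq_empty_iff_forall_notMem]
    intro x hx
    have hx' : x ∈ X \ Y := by
      rw [h]
      exact hYX hx
    exact hx'.2 hx
  · exfalso
    rw [Set.not_infinite] at hbig hbig'
    apply hXinf
    apply (hbig.image2 (fun a b => a ∪ b) hbig').subset
    rintro Z ⟨hZB, hZX⟩
    refine ⟨Z ∩ Y, ⟨hB.inter_mem hZB hYB, Set.inter_subset_right⟩, Z \ Y,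
      ⟨hB.sdiff_mem hZB hYB, Set.sdiff_subset_sdiff_left hZX⟩, ?_⟩
    exact Set.inter_union_sdiff Z Y

lemma exists_disjoint_seq (hB : IsSetAlgebra B) (hinf : B.Infinite) :
    ∃ A : ℕ → Set J, (∀ k, A k ∈ B) ∧ (∀ k, (A k).Nonempty) ∧
      ∀ i j, i ≠ j → Disjoint (A i) (A j) := by
  classical
  choose f hf using big_step hB
  have huniv : Big B Set.univ := by
    refine ⟨hB.univ_mem, ?_⟩
    convert hinf using 1
    ext Y
    simp
  let s : ℕ → {X : Set J // Big B X} := fun n =>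
    Nat.rec ⟨Set.univ, huniv⟩ (fun _ X => ⟨f X.1 X.2, (hf X.1 X.2).1⟩) n
  have hs : ∀ n, (s (n + 1)).1 ⊂ (s n).1 := fun n => (hf (s n).1 (s n).2).2
  have hanti : ∀ i j, i ≤ j → (s j).1 ⊆ (s i).1 := by
    intro i j hij
    induction hij with
    | refl => exact subset_rfl
    | step _ ih => exact (hs _).subset.trans ih
  refine ⟨fun k => (s k).1 \ (s (k + 1)).1, ?_, ?_, ?_⟩
  · intro k
    exact hB.sdiff_mem (s k).2.1 (s (k + 1)).2.1
  · intro k
    obtain ⟨x, hx, hx'⟩ := Set.exists_of_ssubset (hs k)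
    exact ⟨x, hx, hx'⟩
  · have key : ∀ i j, i < j → Disjoint ((s i).1 \ (s (i + 1)).1) ((s j).1 \ (s (j + 1)).1) := by
      intro i j hij
      rw [Set.disjoint_left]
      rintro x ⟨_, hx2⟩ ⟨hx3, _⟩
      exact hx2 (hanti (i + 1) j hij hx3)
    intro i j hij
    rcases lt_or_gt_of_ne hij with h | h
    · exact key i j h
    · exact (key j i h).symm

/-- The step function `F s = 1 - 2 ^ (- log_4 s)`. -/
noncomputable def F (s : ℕ) : ℝ := 1 - (1 / 2 : ℝ) ^ (Nat.log 4 s)

lemma F_mono {s t : ℕ} (h : s ≤ t) : F s ≤ F t := by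
  unfold F
  have : (1 / 2 : ℝ) ^ (Nat.log 4 t) ≤ (1 / 2 : ℝ) ^ (Nat.log 4 s) :=
    pow_le_pow_of_le_one (by norm_num) (by norm_num) (Nat.log_mono_right h)
  linarith

lemma F_nonneg (s : ℕ) : 0 ≤ F s := by
  unfold F
  have : (1 / 2 : ℝ) ^ (Nat.log 4 s) ≤ 1 := pow_le_one₀ (by norm_num) (by norm_num)
  linarith

lemma F_le_one (s : ℕ) : F s ≤ 1 := by
  unfold F
  have : 0 ≤ (1 / 2 : ℝ) ^ (Nat.log 4 s) := by positivity
  linarith

lemma F_jump (n : ℕ) :
    2 * F (4 ^ (n + 1)) - F (4 ^ (n + 1) - 1) - F (4 ^ (n + 1) + 1) = (1 / 2 : ℝ) ^ (n + 1) := by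
  have h4 : 4 ≤ 4 ^ (n + 1) := by
    calc 4 = 4 ^ 1 := by norm_num
      _ ≤ 4 ^ (n + 1) := Nat.pow_le_pow_right (by norm_num) (by omega)
  have h1 : Nat.log 4 (4 ^ (n + 1)) = n + 1 := Nat.log_pow (by norm_num) _
  have h2 : Nat.log 4 (4 ^ (n + 1) + 1) = n + 1 := by
    rw [Nat.log_eq_iff (Or.inl (by omega))]
    constructor
    · omega
    · rw [pow_succ 4 (n + 1)]; omega
  have h3 : Nat.log 4 (4 ^ (n + 1) - 1) = n := by
    by_cases hn : n = 0
    · subst hn; norm_num
    · rw [Nat.log_eq_iff (Or.inl hn)]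
      constructor
      · rw [pow_succ 4 n] at h4 ⊢
        have : 1 ≤ 4 ^ n := Nat.one_le_pow _ _ (by norm_num)
        omega
      · omega
  unfold F
  rw [h1, h2, h3]
  ring

/-- The index set with the first `i` even and the first `j` odd numbers. -/
def T (i j : ℕ) : Finset ℕ := (range i).image (fun k => 2 * k) ∪ (range j).image (fun k => 2 * k + 1)

lemma mem_T (i j x : ℕ) : x ∈ T i j ↔ (x % 2 = 0 ∧ x / 2 < i) ∨ (x % 2 = 1 ∧ x / 2 < j) := by
  unfold T
  simp only [mem_union, mem_image, mem_range]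
  constructor
  · rintro (⟨a, ha, rfl⟩ | ⟨a, ha, rfl⟩)
    · left; omega
    · right; omega
  · rintro (⟨h1, h2⟩ | ⟨h1, h2⟩)
    · left; exact ⟨x / 2, h2, by omega⟩
    · right; exact ⟨x / 2, h2, by omega⟩

lemma card_T (i j : ℕ) : (T i j).card = i + j := by
  unfold T
  rw [card_union_of_disjoint, card_image_of_injective, card_image_of_injective, card_range,
    card_range]
  · intro a b h; simpa using h
  · intro a b h; simpa using h
  · rw [Finset.disjoint_left]
    intro x h1 h2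
    simp only [mem_image, mem_range] at h1 h2
    obtain ⟨a, _, rfl⟩ := h1
    obtain ⟨b, _, hb⟩ := h2
    omega

lemma T_union (i j : ℕ) : T (i + 1) j ∪ T i (j + 1) = T (i + 1) (j + 1) := by
  ext x
  simp only [mem_union, mem_T]
  omega

lemma T_inter (i j : ℕ) : T (i + 1) j ∩ T i (j + 1) = T i j := by
  ext x
  simp only [mem_inter, mem_T]
  omega

lemma telescope (a : ℕ → ℕ → ℝ) (m : ℕ) :
    ∑ i ∈ range m, ∑ j ∈ range m, (a (i + 1) j + a i (j + 1) - a i j - a (i + 1) (j + 1)) =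
      a m 0 + a 0 m - a 0 0 - a m m := by
  have h1 : ∀ i, ∑ j ∈ range m, (a (i + 1) j + a i (j + 1) - a i j - a (i + 1) (j + 1)) =
      (a (i + 1) 0 - a (i + 1) m) - (a i 0 - a i m) := by
    intro i
    have h2 := Finset.sum_range_sub (fun j => a i j - a (i + 1) j) m
    have h3 : ∑ j ∈ range m, (a (i + 1) j + a i (j + 1) - a i j - a (i + 1) (j + 1)) =
        ∑ j ∈ range m, ((a i (j + 1) - a (i + 1) (j + 1)) - (a i j - a (i + 1) j)) :=
      Finset.sum_congr rfl (fun j _ => by ring)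
    rw [h3, h2]
    ring
  rw [Finset.sum_congr rfl (fun i _ => h1 i),
    Finset.sum_range_sub (fun i => a i 0 - a i m) m]
  ring

lemma infinite_case (hB : IsSetAlgebra B) (hinf : B.Infinite) :
    ∃ φ : Set J → ℝ, Increasing B φ ∧ (∀ X ∈ B, 0 ≤ φ X ∧ φ X ≤ 1) ∧
      ¬ DiffOfBoundedSubmodular B φ := by
  classical
  obtain ⟨A, hAB, hAne, hAdisj⟩ := exists_disjoint_seq hB hinf
  let S : Set J → Set ℕ := fun X => {k | A k ⊆ X}
  let φ : Set J → ℝ := fun X => if (S X).Finite then F (S X).ncard else 1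
  refine ⟨φ, ?_, ?_, ?_⟩
  · intro X _ Y _ hXY
    have hS : S X ⊆ S Y := fun k hk => (show A k ⊆ X from hk).trans hXY
    by_cases hY : (S Y).Finite
    · have hX : (S X).Finite := hY.subset hS
      simp only [φ, hX, hY, if_true]
      exact F_mono (Set.ncard_le_ncard hS hY)
    · by_cases hX : (S X).Finite
      · simp only [φ, hX, hY, if_true, if_false]
        exact F_le_one _
      · simp only [φ, hX, hY, if_false]
        exact le_rfl
  · intro X _
    by_cases hX : (S X).Finite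
    · simp only [φ, hX, if_true]
      exact ⟨F_nonneg _, F_le_one _⟩
    · simp only [φ, hX, if_false]
      norm_num
  · rintro ⟨ψ₁, ψ₂, ⟨⟨C, hC⟩, hsub1⟩, ⟨_, hsub2⟩, hdiff⟩
    -- finite unions
    let U : Finset ℕ → Set J := fun t => ⋃ k ∈ t, A k
    have hUB : ∀ t, U t ∈ B := fun t => hB.biUnion_mem t (fun k _ => hAB k)
    have hUS : ∀ t, S (U t) = (t : Set ℕ) := by
      intro t
      ext k
      constructor
      · intro hk
        obtain ⟨x, hx⟩ := hAne k
        have hx' : x ∈ U t := (show A k ⊆ U t from hk) hx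
        simp only [U, Set.mem_iUnion] at hx'
        obtain ⟨l, hl, hxl⟩ := hx'
        by_cases hkl : k = l
        · subst hkl; exact hl
        · exact absurd hxl (Set.disjoint_left.1 (hAdisj k l hkl) hx)
      · intro hk
        exact Set.subset_biUnion_of_mem (u := A) hk
    have hφU : ∀ t, φ (U t) = F t.card := by
      intro t
      have hfin : (S (U t)).Finite := by rw [hUS]; exact t.finite_toSet
      simp only [φ, hfin, if_true]
      rw [hUS, Set.ncard_coe_finset]
    have hUunion : ∀ s t, U (s ∪ t) = U s ∪ U t := by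
      intro s t
      ext x
      simp only [U, Set.mem_iUnion, Set.mem_union, mem_union]
      constructor
      · rintro ⟨k, hk | hk, hx⟩
        · exact Or.inl ⟨k, hk, hx⟩
        · exact Or.inr ⟨k, hk, hx⟩
      · rintro (⟨k, hk, hx⟩ | ⟨k, hk, hx⟩)
        · exact ⟨k, Or.inl hk, hx⟩
        · exact ⟨k, Or.inr hk, hx⟩
    have hUinter : ∀ s t, U (s ∩ t) = U s ∩ U t := by
      intro s t
      ext x
      simp only [U, Set.mem_iUnion, Set.mem_inter_iff, mem_inter]
      constructor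
      · rintro ⟨k, ⟨hk, hk'⟩, hx⟩
        exact ⟨⟨k, hk, hx⟩, ⟨k, hk', hx⟩⟩
      · rintro ⟨⟨k, hk, hx⟩, ⟨l, hl, hx'⟩⟩
        by_cases hkl : k = l
        · subst hkl; exact ⟨k, ⟨hk, hl⟩, hx⟩
        · exact absurd hx' (Set.disjoint_left.1 (hAdisj k l hkl) hx)
    -- mixed differences
    have hD : ∀ ψ : Set J → ℝ, SubmodularOn B ψ → ∀ i j,
        0 ≤ ψ (U (T (i + 1) j)) + ψ (U (T i (j + 1))) - ψ (U (T i j)) -
          ψ (U (T (i + 1) (j + 1))) := by
      intro ψ hψ i j
      have := hψ _ (hUB (T (i + 1) j)) _ (hUB (T i (j + 1)))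
      rw [← hUinter, ← hUunion, T_union, T_inter] at this
      linarith
    have hbound : ∀ n : ℕ, (2 : ℝ) ^ (n + 1) ≤ 4 * C := by
      intro n
      set m := 4 ^ (n + 1) with hm
      have hm1 : 1 ≤ m := Nat.one_le_pow _ _ (by norm_num)
      set a : ℕ → ℕ → ℝ := fun i j => ψ₁ (U (T i j)) with ha
      have htel := telescope a m
      have h1 : ∀ i ∈ range m, (1 / 2 : ℝ) ^ (n + 1) ≤
          ∑ j ∈ range m, (a (i + 1) j + a i (j + 1) - a i j - a (i + 1) (j + 1)) := by
        intro i hi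
        rw [mem_range] at hi
        have hj : m - 1 - i ∈ range m := by rw [mem_range]; omega
        have h2 := Finset.single_le_sum
          (f := fun j => a (i + 1) j + a i (j + 1) - a i j - a (i + 1) (j + 1))
          (s := range m) (fun j _ => hD ψ₁ hsub1 i j) hj
        refine le_trans ?_ h2
        set j := m - 1 - i with hjdef
        have e1 := hdiff _ (hUB (T (i + 1) j))
        have e2 := hdiff _ (hUB (T i (j + 1)))
        have e3 := hdiff _ (hUB (T i j))
        have e4 := hdiff _ (hUB (T (i + 1) (j + 1)))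
        rw [hφU, card_T] at e1 e2 e3 e4
        have k1 : i + 1 + j = m := by omega
        have k2 : i + (j + 1) = m := by omega
        have k3 : i + j = m - 1 := by omega
        have k4 : i + 1 + (j + 1) = m + 1 := by omega
        rw [k1] at e1
        rw [k2] at e2
        rw [k3] at e3
        rw [k4] at e4
        have h3 := hD ψ₂ hsub2 i j
        have h4 := F_jump n
        rw [← hm] at h4
        simp only [ha]
        linarith
      have h2 : ∑ i ∈ range m, (1 / 2 : ℝ) ^ (n + 1) ≤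
          ∑ i ∈ range m, ∑ j ∈ range m, (a (i + 1) j + a i (j + 1) - a i j - a (i + 1) (j + 1)) :=
        Finset.sum_le_sum h1
      rw [htel, Finset.sum_const, card_range, nsmul_eq_mul] at h2
      have b1 := abs_le.1 (hC _ (hUB (T m 0)))
      have b2 := abs_le.1 (hC _ (hUB (T 0 m)))
      have b3 := abs_le.1 (hC _ (hUB (T 0 0)))
      have b4 := abs_le.1 (hC _ (hUB (T m m)))
      have h5 : (m : ℝ) * (1 / 2 : ℝ) ^ (n + 1) = 2 ^ (n + 1) := by
        rw [hm]
        push_cast
        rw [← mul_pow]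
        norm_num
      rw [h5] at h2
      simp only [ha] at h2
      linarith
    obtain ⟨n, hn⟩ := pow_unbounded_of_one_lt (4 * C) (one_lt_two)
    have := hbound n
    have h' : (2 : ℝ) ^ n ≤ 2 ^ (n + 1) := pow_le_pow_right₀ (by norm_num) (by omega)
    linarith

end Infinite

lemma increasing_boundedVariation {J : Type u} {B : Set (Set J)} {φ : Set J → ℝ}
    (h : Increasing B φ) : BoundedVariation B φ :=
  ⟨φ, fun _ => 0, h, fun _ _ _ _ _ => le_rfl, fun _ _ => by simp⟩

/-- For a set algebra `B` the following are equivalent: `B` is finite; every set function of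
bounded variation on `B` is a difference of two bounded submodular set functions; every increasing
set function on `B` with values in `[0, 1]` is a difference of two bounded submodular set
functions. -/
theorem main {J : Type u} (B : Set (Set J)) (hB : IsSetAlgebra B) :
    [B.Finite,
     ∀ φ : Set J → ℝ, BoundedVariation B φ → DiffOfBoundedSubmodular B φ,
     ∀ φ : Set J → ℝ, Increasing B φ → (∀ X ∈ B, 0 ≤ φ X ∧ φ X ≤ 1) →
       DiffOfBoundedSubmodular B φ].TFAE := by
  tfae_have 1 → 2 := fun h φ _ => finite_case hB h φ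
  tfae_have 2 → 3 := fun h φ hφ _ => h φ (increasing_boundedVariation hφ)
  tfae_have 3 → 1 := by
    intro h
    by_contra hinf
    obtain ⟨φ, h1, h2, h3⟩ := infinite_case hB hinf
    exact h3 (h φ h1 h2)
  tfae_finish

end Pool.Agent.Helper28.SetAlg
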